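import Pool.Agent.H923R2.FP.Stubs

/-! # Every coefficient matrix has some bound -/

set_option autoImplicit false

namespace Pool.Agent.H923R2.FP.T_C5

open Pool.Agent.H923R2.FP

theorem Uc_cont (n : ℕ) : Continuous fun l : ℝ => Uc l n := by
  induction n using Nat.strong_induction_on with
  | _ n ih =>
    match n with
    | 0 => exact continuous_const
    | 1 => exact continuous_id
    | m + 2 =>
      have h1 := ih (m + 1) (by omega)
      have h2 := ih m (by omega)
      exact (continuous_id.mul h1).sub h2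

theorem t_C5 : S_C5 := by
  intro κ M
  have hc1 : Continuous fun l : ℝ => ∑ m ∈ Finset.range M,
      ‖∑ n ∈ Finset.range M, κ m n * (Uc l n : ℝ)‖ ^ 2 := by
    refine continuous_finsetSum _ fun m _ => ?_
    refine (Continuous.norm ?_).pow 2
    refine continuous_finsetSum _ fun n _ => ?_
    exact continuous_const.mul (Complex.continuous_ofReal.comp (Uc_cont n))
  have hc2 : Continuous fun l : ℝ => ∑ n ∈ Finset.range M,
      ‖∑ m ∈ Finset.range M, κ m n * (Uc l m : ℝ)‖ ^ 2 := by
    refine continuous_finsetSum _ fun m _ => ?_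
    refine (Continuous.norm ?_).pow 2
    refine continuous_finsetSum _ fun n _ => ?_
    exact continuous_const.mul (Complex.continuous_ofReal.comp (Uc_cont n))
  obtain ⟨C1, hC1⟩ := (isCompact_Icc (a := (-2 : ℝ)) (b := 2)).exists_bound_of_continuousOn
    hc1.continuousOn
  obtain ⟨C2, hC2⟩ := (isCompact_Icc (a := (-2 : ℝ)) (b := 2)).exists_bound_of_continuousOn
    hc2.continuousOn
  refine ⟨1 + |C1| + |C2|, by positivity, fun l hl => ?_⟩
  have hl' : l ∈ Set.Icc (-2 : ℝ) 2 := ⟨(abs_le.1 hl).1, (abs_le.1 hl).2⟩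
  have h0 : 1 + |C1| + |C2| ≤ (1 + |C1| + |C2|) ^ 2 := by
    have h1 : (1 : ℝ) ≤ 1 + |C1| + |C2| := by linarith [abs_nonneg C1, abs_nonneg C2]
    nlinarith
  constructor
  · have h1 := hC1 l hl'
    have h2 := (le_abs_self _).trans h1
    exact h2.trans (by linarith [le_abs_self C1, abs_nonneg C2])
  · have h1 := hC2 l hl'
    have h2 := (le_abs_self _).trans h1
    exact h2.trans (by linarith [le_abs_self C2, abs_nonneg C1])

end Pool.Agent.H923R2.FP.T_C5
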